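import Pool.Agent.P.MP_27b523_gt.S.Defs

namespace Pool.Agent.P.MP_27b523_gt.S

open Set Filter Topology

variable {T : Type} [TopologicalSpace T]

/-- working form of `S₁(Γ,Ω)` -/
def WS (A : Set T) : Prop :=
  ∀ V : ℕ → ℕ → Set T, (∀ n m, IsOpen (V n m)) → (∀ z ∈ A, ∀ n, ∀ᶠ m in atTop, z ∈ V n m) →
    ∃ f : ℕ → ℕ, ∀ F ⊆ A, F.Finite → ∃ n, F ⊆ V n (f n)

lemma ws_of_s1 {A : Set T} (h : S1GammaOmega A) : WS A := by
  intro V hV hA
  by_cases hc : ∃ n m, A ⊆ V n m
  · obtain ⟨n, m, hnm⟩ := hc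
    exact ⟨fun _ => m, fun F hF _ => ⟨n, hF.trans hnm⟩⟩
  have hc' : ∀ n m, ¬ A ⊆ V n m := fun n m h => hc ⟨n, m, h⟩
  refine (h (fun n => range fun m => A ∩ V n m) (fun n => ⟨?_, ?_, ?_⟩)).elim ?_
  rotate_right
  · rintro U ⟨hU, -, hU2⟩
    choose f hf using hU
    refine ⟨f, fun F hF hfin => ?_⟩
    obtain ⟨_, ⟨n, rfl⟩, hn⟩ := hU2 F hF hfin
    refine ⟨n, fun x hx => ?_⟩
    have := hn hx
    rw [← hf n] at this
    exact this.2
  · rintro _ ⟨m, rfl⟩
    exact ⟨_, hV n m, rfl⟩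
  · intro hfin
    have : ∀ᶠ m in atTop, ∀ W ∈ range (fun m => A ∩ V n m), A ∩ V n m ≠ W := by
      rw [hfin.eventually_all]
      rintro _ ⟨k, rfl⟩
      obtain ⟨z, hz, hz'⟩ := not_subset.1 (hc' n k)
      filter_upwards [hA z hz n] with m hm he
      have : z ∈ A ∩ V n m := ⟨hz, hm⟩
      rw [he] at this
      exact hz' this.2
    obtain ⟨m, hm⟩ := this.exists
    exact hm _ ⟨m, rfl⟩ rfl
  · intro z hz
    have : {m | z ∉ V n m}.Finite := by
      have := hA z hz n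
      rw [← Nat.cofinite_eq_atTop] at this
      exact this
    refine (this.image fun m => A ∩ V n m).subset ?_
    rintro _ ⟨⟨m, rfl⟩, hm⟩
    exact ⟨m, fun h => hm ⟨hz, h⟩, rfl⟩

lemma s1_of_ws {A : Set T} (h : WS A) : S1GammaOmega A := by
  intro 𝒰 h𝒰
  have hinf : ∀ n, (𝒰 n \ {A}).Infinite := fun n => (h𝒰 n).2.1.sdiff (finite_singleton A)
  let u : ℕ → ℕ → Set T := fun n m => (hinf n).natEmbedding _ m
  have hu : ∀ n m, u n m ∈ 𝒰 n \ {A} := fun n m => ((hinf n).natEmbedding _ m).2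
  have hinj : ∀ n, Function.Injective (u n) := fun n =>
    Subtype.val_injective.comp ((hinf n).natEmbedding _).injective
  choose V hV hVe using fun n m => (h𝒰 n).1 _ (hu n m).1
  refine (h V hV (fun z hz n => ?_)).elim fun f hf => ?_
  swap
  · refine ⟨fun n => u n (f n), fun n => (hu n _).1, ?_, fun F hF hfin => ?_⟩
    · rintro ⟨n, hn⟩
      exact (hu n _).2 hn
    · obtain ⟨n, hn⟩ := hf F hF hfin
      refine ⟨_, ⟨n, rfl⟩, ?_⟩
      show F ⊆ u n (f n)
      rw [hVe]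
      exact subset_inter hF hn
  · rw [← Nat.cofinite_eq_atTop]
    have := ((h𝒰 n).2.2 z hz).preimage (hinj n).injOn
    refine this.subset fun m hm => ⟨(hu n m).1, fun h => hm ?_⟩
    rw [hVe] at h
    exact h.2

/-- the Gerlits-Nagy selection lemma -/
lemma gn [T1Space T] {Y : Set T} (hY : GammaProp Y) {ι : Type} (W : ℕ → ι → Set T)
    (hW : ∀ k j, IsOpen (W k j)) (hc : ∀ k, ∀ G ⊆ Y, G.Finite → ∃ j, G ⊆ W k j) :
    ∃ j : ℕ → ι, ∀ y ∈ Y, ∀ᶠ k in atTop, y ∈ W k (j k) := by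
  by_cases hfin : Y.Finite
  · choose j hj using fun k => hc k Y subset_rfl hfin
    exact ⟨j, fun y hy => Eventually.of_forall fun k => hj k hy⟩
  have hne : Nonempty ι := ⟨(hc 0 ∅ (empty_subset _) finite_empty).choose⟩
  let y : ℕ → T := fun k => Set.Infinite.natEmbedding Y hfin k
  have hy : ∀ k, y k ∈ Y := fun k => (Set.Infinite.natEmbedding Y hfin k).2
  have hinj : Function.Injective y :=
    Subtype.val_injective.comp (Set.Infinite.natEmbedding Y hfin).injective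
  let P : ℕ × (ℕ → ι) → Set T := fun p => Y ∩ ((⋂ i ∈ Iic p.1, W i (p.2 i)) \ {y p.1})
  refine (hY (range P) ?_ ⟨?_, ?_⟩).elim ?_
  rotate_right
  · rintro 𝒱 ⟨h𝒱, hinf, hγ⟩
    choose! p hp using fun V (hV : V ∈ 𝒱) => h𝒱 hV
    have h1 : ∀ n, ∃ V ∈ 𝒱, n ≤ (p V).1 := by
      intro n
      by_contra hn
      apply hinf
      refine ((finite_Iio n).biUnion fun k _ => hγ (y k) (hy k)).subset fun V hV => ?_
      have hlt : (p V).1 < n := not_le.1 fun h => hn ⟨V, hV, h⟩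
      refine mem_biUnion hlt ⟨hV, fun h => ?_⟩
      have h' : y (p V).1 ∈ P (p V) := by rw [hp V hV]; exact h
      exact h'.2.2 rfl
    choose V hV hVn using h1
    refine ⟨fun n => (p (V n)).2 n, fun z hz => ?_⟩
    obtain ⟨N, hN⟩ := ((hγ z hz).image fun V => (p V).1).bddAbove
    filter_upwards [eventually_gt_atTop N] with n hn
    have hz' : z ∈ V n := by
      by_contra h
      have h2 : (p (V n)).1 ≤ N := hN ⟨V n, ⟨hV n, h⟩, rfl⟩
      have := hVn n
      omega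
    have h' : z ∈ P (p (V n)) := by rw [hp _ (hV n)]; exact hz'
    exact mem_iInter₂.1 h'.2.1 n (hVn n)
  · rintro _ ⟨p, rfl⟩
    exact ⟨_, ((finite_Iic _).isOpen_biInter fun i _ => hW _ _).sdiff isClosed_singleton, rfl⟩
  · rintro ⟨p, hp⟩
    have h' : y p.1 ∈ P p := by rw [hp]; exact hy _
    exact h'.2.2 rfl
  · intro F hF hFf
    obtain ⟨k, hk⟩ := (hFf.preimage hinj.injOn).infinite_compl.nonempty
    choose f hf using fun i => hc i F hF hFf
    refine ⟨_, ⟨(k, f), rfl⟩, fun x hx => ⟨hF hx, mem_iInter₂.2 fun i _ => hf i hx, ?_⟩⟩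
    rintro rfl
    exact hk hx

/-- the sets missing the interval `[a, b)` -/
def Om (a b : ℕ) : Set Cantor := {x | ∀ n ∈ Ico a b, ¬ x n}

lemma isClosed_Om (a b : ℕ) : IsClosed (Om a b) := by
  have : Om a b = ⋂ n ∈ Ico a b, (fun x : Cantor => x n) ⁻¹' {false} := by
    ext x
    simp [Om]
  rw [this]
  exact isClosed_biInter fun n _ => (isClosed_discrete _).preimage (continuous_apply n)

lemma Om_anti (a : ℕ) {b c : ℕ} (h : b ≤ c) : Om a c ⊆ Om a b :=
  fun _ hx n hn => hx n ⟨hn.1, hn.2.trans_le h⟩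

lemma exists_Om (a : ℕ) {O : Set Cantor} (hO : IsOpen O)
    (h : {x : Cantor | ∀ n, a ≤ n → ¬ x n} ⊆ O) : ∃ b, Om a b ⊆ O := by
  refine (hO.isClosed_compl.isCompact.elim_directed_cover (fun b => (Om a b)ᶜ)
    (fun b => (isClosed_Om a b).isOpen_compl) ?_
    (Monotone.directed_le fun b c hbc => compl_subset_compl.2 (Om_anti a hbc))).imp
      fun b hb => compl_subset_compl.1 hb
  intro x hx
  by_contra hx'
  refine hx (h fun n hn hxn => hx' (mem_iUnion.2 ⟨n + 1, fun hm => ?_⟩))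
  exact hm n ⟨hn, Nat.lt_succ_self n⟩ hxn

lemma finite_low (a : ℕ) : {x : Cantor | ∀ n, a ≤ n → ¬ x n}.Finite := by
  refine (finite_range fun (g : Fin a → Bool) (n : ℕ) =>
    if h : n < a then g ⟨n, h⟩ else false).subset fun x hx => ⟨fun i => x i, ?_⟩
  funext n
  by_cases h : n < a
  · simp [h]
  · have := hx n (not_lt.1 h)
    simp only [h, dite_false]
    exact ((Bool.not_eq_true _).mp this).symm

lemma low_subset (a : ℕ) : {x : Cantor | ∀ n, a ≤ n → ¬ x n} ⊆ FinSets :=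
  fun _ hx => (finite_Iio a).subset fun n hn => not_le.1 fun h => hx n h hn

lemma nth_range {k : ℕ → ℕ} (hk : StrictMono k) :
    ∃ d : Cantor, {n | d n}.Infinite ∧ Nat.nth (d ·) = k := by
  classical
  have he : {n | decide (n ∈ range k) = true} = range k := by
    ext n
    simp only [mem_ofPred_eq, decide_eq_true_eq]
  have hi : {n | decide (n ∈ range k) = true}.Infinite := by
    rw [he]
    exact infinite_range_of_injective hk.injective
  refine ⟨fun n => decide (n ∈ range k), hi, ?_⟩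
  refine ((Nat.nth_strictMono hi).range_inj hk).1 ?_
  rw [Nat.range_nth_of_infinite hi]
  exact he

end Pool.Agent.P.MP_27b523_gt.S
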