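import Pool.Agent.P.MP_27b523_gt.S.Basic

namespace Pool.Agent.P.MP_27b523_gt.S

open Set Filter Topology Cardinal

variable {T : Type} [TopologicalSpace T] [T1Space T] {Y : Set T} {κ : Cardinal.{0}}
  {X : Set Cantor}

lemma lemA (hY : GammaProp Y) {E : Set Cantor} (hE : E.Finite) (W : ℕ → Set (Cantor × T))
    (hW : ∀ n, IsOpen (W n)) (hc : ∀ F ⊆ (E ∪ FinSets) ×ˢ Y, F.Finite → ∃ n, F ⊆ W n) :
    ∃ k : ℕ → ℕ, StrictMono k ∧ ∀ G ⊆ Y, G.Finite →
      ∀ᶠ i in atTop, ∃ n, (E ∪ Om (k i) (k (i + 1))) ×ˢ G ⊆ W n := by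
  obtain ⟨j, hj⟩ := gn hY (fun a (p : ℕ × ℕ) => {y | ∀ x ∈ E ∪ Om a p.2, (x, y) ∈ W p.1})
    (fun a p => isOpen_iff_mem_nhds.2 fun y hy =>
      (hE.isCompact.union (isClosed_Om a p.2).isCompact).eventually_forall_of_forall_eventually
        (P := fun y x => (x, y) ∈ W p.1) fun x hx =>
          ((hW p.1).preimage continuous_swap).mem_nhds (hy x hx))
    (fun a G hG hGf => by
      obtain ⟨n, hn⟩ := hc ((E ∪ {x | ∀ n, a ≤ n → ¬ x n}) ×ˢ G)
        (prod_mono (union_subset_union_right _ (low_subset a)) hG)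
        ((hE.union (finite_low a)).prod hGf)
      obtain ⟨b, hb⟩ := exists_Om a (O := ⋂ y ∈ G, (fun x => (x, y)) ⁻¹' W n)
        (hGf.isOpen_biInter fun y _ => (hW n).preimage (by fun_prop))
        (fun x hx => mem_iInter₂.2 fun y hy => hn ⟨Or.inr hx, hy⟩)
      refine ⟨(n, b), fun y hy x hx => ?_⟩
      rcases hx with hx | hx
      · exact hn ⟨Or.inl hx, hy⟩
      · exact mem_iInter₂.1 (hb hx) y hy)
  let k : ℕ → ℕ := fun i => Nat.rec 0 (fun _ a => max (j a).2 (a + 1)) i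
  have hk : StrictMono k := strictMono_nat_of_lt_succ fun i =>
    (Nat.lt_succ_self _).trans_le (le_max_right (j (k i)).2 (k i + 1))
  refine ⟨k, hk, fun G hG hGf => ?_⟩
  filter_upwards [hk.tendsto_atTop.eventually (hGf.eventually_all.2 fun y hy => hj y (hG hy))]
    with i hi
  refine ⟨(j (k i)).1, fun z hz => hi z.2 hz.2 z.1 (hz.1.imp_right fun h => ?_)⟩
  exact Om_anti _ (le_max_left (j (k i)).2 (k i + 1)) h

lemma lemB (hX : FinUnbounded κ X) (hY : GammaProp Y) {E : Set Cantor} (hE : E.Finite)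
    (W : ℕ → Set (Cantor × T)) (hW : ∀ n, IsOpen (W n))
    (hc : ∀ F ⊆ (E ∪ FinSets) ×ˢ Y, F.Finite → ∃ n, F ⊆ W n) :
    ∃ S ⊆ X, Cardinal.mk S < κ ∧ ∀ F ⊆ (X \ S) ∪ FinSets, F.Finite → ∀ G ⊆ Y, G.Finite →
      ∃ n, (E ∪ F) ×ˢ G ⊆ W n := by
  obtain ⟨k, hk, h⟩ := lemA hY hE W hW hc
  obtain ⟨d, hd, hdk⟩ := nth_range hk
  obtain ⟨S, hS, hSκ, hF⟩ := hX.2.2 d hd
  refine ⟨S, hS, hSκ, fun F hFs hFf G hG hGf => ?_⟩
  have h1 := hF (F ∩ (X \ S)) inter_subset_right (hFf.subset inter_subset_left)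
  rw [hdk, ← Nat.frequently_atTop_iff_infinite] at h1
  have h2 : ∀ᶠ i in atTop, ∀ x ∈ F ∩ FinSets, x ∈ Om (k i) (k (i + 1)) := by
    rw [(hFf.subset inter_subset_left).eventually_all]
    intro x hx
    obtain ⟨N, hN⟩ := Set.Finite.bddAbove hx.2
    filter_upwards [hk.tendsto_atTop.eventually (eventually_gt_atTop N)] with i hi n hn hxn
    exact absurd (hN hxn) (not_le.2 (hi.trans_le hn.1))
  obtain ⟨i, h3, h4, n, hn⟩ := (h1.and_eventually (h2.and (h G hG hGf))).exists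
  refine ⟨n, (prod_mono (union_subset_union_right _ fun x hx => ?_) subset_rfl).trans hn⟩
  rcases hFs hx with h5 | h5
  · exact h3 x ⟨hx, h5⟩
  · exact h4 x ⟨hx, h5⟩

lemma step (hκ : κ.IsRegular) (hX : FinUnbounded κ X) (hY : GammaProp Y) {S : Set Cantor}
    (hS : S ⊆ X) (hSκ : Cardinal.mk S < κ) (W : ℕ → Set (Cantor × T)) (hW : ∀ n, IsOpen (W n))
    (hc : ∀ F ⊆ (S ∪ FinSets) ×ˢ Y, F.Finite → ∃ n, F ⊆ W n) :
    ∃ S' ⊆ X, Cardinal.mk S' < κ ∧ S ⊆ S' ∧ ∀ E ⊆ S, E.Finite → ∀ F ⊆ (X \ S') ∪ FinSets,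
      F.Finite → ∀ G ⊆ Y, G.Finite → ∃ n, (E ∪ F) ×ˢ G ⊆ W n := by
  choose R hR hRκ h using fun E : Finset S => lemB hX hY (E := Subtype.val '' (E : Set S))
    (E.finite_toSet.image _) W hW fun F hF => hc F (hF.trans (prod_mono
      (union_subset_union_left _ (Subtype.coe_image_subset _ _)) subset_rfl))
  have hι : Cardinal.mk (Finset S) < κ := by
    rcases finite_or_infinite S with h | h
    · exact (lt_aleph0_of_finite _).trans_le hκ.aleph0_le
    · rwa [mk_finset_of_infinite]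
  refine ⟨S ∪ ⋃ E, R E, union_subset hS (iUnion_subset hR), (mk_union_le _ _).trans_lt
    (add_lt_of_lt hκ.aleph0_le hSκ ((card_iUnion_lt_iff_forall_of_isRegular hκ hι).2 hRκ)),
    subset_union_left, fun E hE hEf F hF hFf G hG hGf => ?_⟩
  have := h (hEf.preimage Subtype.val_injective.injOn).toFinset F (hF.trans
    (union_subset_union_left _ fun x hx => ⟨hx.1, fun h' => hx.2 (Or.inr (mem_iUnion.2 ⟨_, h'⟩))⟩))
    hFf G hG hGf
  rwa [Finite.coe_toFinset, Subtype.image_preimage_coe, inter_eq_self_of_subset_right hE] at this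

theorem reduction (hκ : κ.IsRegular) (hX : FinUnbounded κ X) (hY : GammaProp Y)
    (h : ∀ S ⊆ X, Cardinal.mk S < κ → WS ((S ∪ FinSets) ×ˢ Y)) : WS ((X ∪ FinSets) ×ˢ Y) := by
  intro V hV hA
  have key : ∀ (i : ℕ) (S : {S : Set Cantor // S ⊆ X ∧ Cardinal.mk S < κ}),
      ∃ (S' : {S : Set Cantor // S ⊆ X ∧ Cardinal.mk S < κ}) (f : ℕ → ℕ), S.1 ⊆ S'.1 ∧
        ∀ E ⊆ S.1, E.Finite → ∀ F ⊆ (X \ S'.1) ∪ FinSets, F.Finite → ∀ G ⊆ Y, G.Finite →
          ∃ n, (E ∪ F) ×ˢ G ⊆ V (Nat.pair i n) (f n) := fun i ⟨S, hS, hSκ⟩ => by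
    obtain ⟨f, hf⟩ := h S hS hSκ (fun n => V (Nat.pair i n)) (fun n m => hV _ m) fun z hz n =>
      hA z (prod_mono (union_subset_union_left _ hS) subset_rfl hz) _
    obtain ⟨S', h1, h2, h3, h4⟩ := step hκ hX hY hS hSκ _ (fun n => hV _ (f n)) hf
    exact ⟨⟨S', h1, h2⟩, f, h3, h4⟩
  choose nxt f hsub hcov using key
  let S : ℕ → {S : Set Cantor // S ⊆ X ∧ Cardinal.mk S < κ} := fun i =>
    Nat.rec ⟨∅, empty_subset _, by simpa using hκ.pos⟩ nxt i
  have hmono : Monotone fun i => (S i).1 := monotone_nat_of_le_succ fun i => hsub i (S i)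
  refine ⟨fun N => f N.unpair.1 (S N.unpair.1) N.unpair.2, fun H hH hHf => ?_⟩
  have h1 : ∀ᶠ i in atTop, ∀ x ∈ Prod.fst '' H, x ∈ (S (i + 1)).1 → x ∈ (S i).1 := by
    rw [(hHf.image _).eventually_all]
    intro x _
    by_cases hx : ∃ j, x ∈ (S j).1
    · obtain ⟨j, hj⟩ := hx
      filter_upwards [eventually_ge_atTop j] with i hi _ using hmono hi hj
    · exact Eventually.of_forall fun i hi => (hx ⟨i + 1, hi⟩).elim
  obtain ⟨i, hi⟩ := h1.exists
  obtain ⟨n, hn⟩ := hcov i (S i) (Prod.fst '' H ∩ (S i).1) inter_subset_right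
    ((hHf.image _).subset inter_subset_left) (Prod.fst '' H \ (S i).1)
    (by
      rintro _ ⟨⟨z, hz, rfl⟩, hx⟩
      exact (hH hz).1.imp_left fun h' => ⟨h', fun h'' => hx (hi _ ⟨z, hz, rfl⟩ h'')⟩)
    ((hHf.image _).subset sdiff_subset) (Prod.snd '' H)
    (by
      rintro _ ⟨z, hz, rfl⟩
      exact (hH hz).2)
    (hHf.image _)
  refine ⟨Nat.pair i n, ?_⟩
  rw [inter_union_sdiff] at hn
  simp only [Nat.unpair_pair]
  exact fun z hz => hn ⟨⟨z, hz, rfl⟩, ⟨z, hz, rfl⟩⟩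

theorem small_parts (hκ : κ.IsRegular) (hX : FinUnbounded κ X) (hY : GammaProp Y)
    (h : ∀ S ⊆ X, Cardinal.mk S < κ → S1GammaOmega ((S ∪ FinSets) ×ˢ Y)) :
    S1GammaOmega ((X ∪ FinSets) ×ˢ Y) :=
  s1_of_ws (reduction hκ hX hY fun S hS hSκ => ws_of_s1 (h S hS hSκ))

lemma countable_finSets : FinSets.Countable :=
  (countable_iUnion fun a => (finite_low a).countable).mono fun x hx => by
    obtain ⟨N, hN⟩ := Set.Finite.bddAbove hx
    exact mem_iUnion.2 ⟨N + 1, fun n hn hxn => absurd (hN hxn) (by omega)⟩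

lemma aleph0_lt (hκ : ℵ₀ ≤ κ) (hX : FinUnbounded κ X) : ℵ₀ < κ := by
  refine hκ.lt_of_ne fun he => ?_
  subst he
  have hinf : X.Infinite := infinite_coe_iff.1 (infinite_iff.2 hX.2.1)
  let x : ℕ → Cantor := fun n => hinf.natEmbedding X n
  have hx : ∀ n, x n ∈ X := fun n => (hinf.natEmbedding X n).2
  have hinj : Function.Injective x := Subtype.val_injective.comp (hinf.natEmbedding X).injective
  have h1 : ∀ i a : ℕ, ∃ b, a < b ∧ ∀ j ∈ Iic i, ∃ n ∈ Ico a b, x j n := fun i a => by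
    refine ((eventually_gt_atTop a).and ((finite_Iic i).eventually_all.2 fun j _ => ?_)).exists
    obtain ⟨n, hn, han⟩ := (hX.1 _ (hx j)).exists_gt a
    filter_upwards [eventually_gt_atTop n] with b hb using ⟨n, ⟨han.le, hb⟩, hn⟩
  choose b hb hb' using h1
  let k : ℕ → ℕ := fun i => Nat.rec 0 b i
  have hk : StrictMono k := strictMono_nat_of_lt_succ fun i => hb i (k i)
  obtain ⟨d, hd, hdk⟩ := nth_range hk
  obtain ⟨S, -, hS, hF⟩ := hX.2.2 d hd
  obtain ⟨j, hj⟩ := ((lt_aleph0_iff_set_finite.1 hS).preimage hinj.injOn).infinite_compl.nonempty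
  have := hF {x j} (singleton_subset_iff.2 ⟨hx j, hj⟩) (finite_singleton _)
  rw [hdk] at this
  obtain ⟨i, hi, hji⟩ := this.exists_gt j
  obtain ⟨n, hn, hn'⟩ := hb' i (k i) j hji.le
  exact hi _ rfl n hn hn'

/-- doubling -/
def dbl (x : Cantor) : Cantor := fun n => if n % 2 = 0 then x (n / 2) else !x (n / 2)

/-- halving -/
def hlf (x : Cantor) : Cantor := fun n => x (2 * n)

/-- the range of doubling -/
def KK : Set Cantor := {x | ∀ n, x (2 * n + 1) = !x (2 * n)}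

lemma hlf_dbl (x : Cantor) : hlf (dbl x) = x := by
  funext n
  simp [hlf, dbl]

lemma dbl_mem (x : Cantor) : dbl x ∈ KK := fun n => by
  have : (2 * n + 1) / 2 = n := by omega
  simp [dbl, this]

lemma KK_meets {x : Cantor} (hx : x ∈ KK) (i : ℕ) : ∃ n ∈ Ico (2 * i) (2 * (i + 1)), x n := by
  by_cases h : x (2 * i)
  · exact ⟨_, ⟨le_rfl, by omega⟩, h⟩
  · exact ⟨2 * i + 1, ⟨by omega, by omega⟩, by simpa [hx i] using h⟩

lemma KK_infinite {x : Cantor} (hx : x ∈ KK) : {n | x n}.Infinite :=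
  infinite_of_forall_exists_gt fun a => by
    obtain ⟨n, hn, h⟩ := KK_meets hx (a + 1)
    exact ⟨n, h, by have := hn.1; omega⟩

lemma isClosed_KK : IsClosed KK := by
  rw [KK, ofPred_forall]
  exact isClosed_iInter fun n => isClosed_eq (continuous_apply _)
    ((continuous_of_discreteTopology (f := not)).comp (continuous_apply (2 * n)))

lemma finUnbounded_add (hκ : ℵ₀ ≤ κ) (hX : FinUnbounded κ X) {S : Set Cantor}
    (hS : Cardinal.mk S < κ) : FinUnbounded κ ((X \ KK) ∪ dbl '' S) := by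
  refine ⟨?_, ?_, fun d hd => ?_⟩
  · rintro x (hx | ⟨y, -, rfl⟩)
    · exact hX.1 x hx.1
    · exact KK_infinite (dbl_mem y)
  · obtain ⟨d, hd, hdk⟩ := nth_range (k := fun i => 2 * i) fun a b h => by simpa using h
    obtain ⟨R, -, hR, hF⟩ := hX.2.2 d hd
    by_contra hlt
    refine (hX.2.1.trans ((mk_le_mk_of_subset fun x hx => ?_).trans (mk_union_le _ _))).not_gt
      (add_lt_of_lt hκ (not_le.1 hlt) hR)
    by_contra hx'
    obtain ⟨i, hi⟩ := (hF {x} (singleton_subset_iff.2 ⟨hx, fun h => hx' (Or.inr h)⟩)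
      (finite_singleton _)).nonempty
    rw [hdk] at hi
    refine hx' (Or.inl (Or.inl ⟨hx, fun hK => ?_⟩))
    obtain ⟨n, hn, h⟩ := KK_meets hK i
    exact hi x rfl n hn h
  · obtain ⟨R, -, hR, hF⟩ := hX.2.2 d hd
    refine ⟨((X \ KK) ∩ R) ∪ dbl '' S, union_subset_union_left _ inter_subset_left,
      (mk_union_le _ _).trans_lt (add_lt_of_lt hκ
        ((mk_le_mk_of_subset inter_subset_right).trans_lt hR) (mk_image_le.trans_lt hS)),
      fun F hFs => hF F fun x hx => ?_⟩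
    obtain ⟨h1 | h1, h2⟩ := hFs hx
    · exact ⟨h1.1, fun h => h2 (Or.inl ⟨h1, h⟩)⟩
    · exact (h2 (Or.inr h1)).elim

omit [T1Space T] in
lemma ws_retract {S : Set Cantor} (h : WS ((((X \ KK) ∪ dbl '' S) ∪ FinSets) ×ˢ Y)) :
    WS (S ×ˢ Y) := by
  intro V hV hA
  have hc : Continuous fun z : Cantor × T => (hlf z.1, z.2) :=
    (continuous_pi fun n => (continuous_apply (2 * n)).comp continuous_fst).prodMk continuous_snd
  obtain ⟨f, hf⟩ := h (fun n m => (fun z => (hlf z.1, z.2)) ⁻¹' V n m ∪ (Prod.fst ⁻¹' KK)ᶜ)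
    (fun n m => ((hV n m).preimage hc).union (isClosed_KK.preimage continuous_fst).isOpen_compl)
    (by
      rintro ⟨x, y⟩ ⟨(hx | ⟨s, hs, rfl⟩) | hx, hy⟩ n
      · exact Eventually.of_forall fun m => Or.inr hx.2
      · filter_upwards [hA (s, y) ⟨hs, hy⟩ n] with m hm
        exact Or.inl (by simpa [hlf_dbl] using hm)
      · exact Eventually.of_forall fun m => Or.inr fun hK => KK_infinite hK hx)
  refine ⟨f, fun F hF hFf => ?_⟩
  obtain ⟨n, hn⟩ := hf ((fun z : Cantor × T => (dbl z.1, z.2)) '' F) (by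
    rintro _ ⟨z, hz, rfl⟩
    exact ⟨Or.inl (Or.inr ⟨_, (hF hz).1, rfl⟩), (hF hz).2⟩) (hFf.image _)
  refine ⟨n, fun z hz => ?_⟩
  rcases hn ⟨z, hz, rfl⟩ with h1 | h1
  · simpa [hlf_dbl] using h1
  · exact (h1 (dbl_mem _)).elim

theorem small_products (hκ : κ.IsRegular) (hX : ∃ X, FinUnbounded κ X) (hY : GammaProp Y) :
    (∀ X, FinUnbounded κ X → S1GammaOmega ((X ∪ FinSets) ×ˢ Y)) ↔
      ∀ S : Set Cantor, Cardinal.mk S < κ → S1GammaOmega (S ×ˢ Y) := by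
  obtain ⟨X₀, hX₀⟩ := hX
  refine ⟨fun h S hS => s1_of_ws (ws_retract (ws_of_s1
    (h _ (finUnbounded_add hκ.aleph0_le hX₀ hS)))), fun h X hX => small_parts hκ hX hY
      fun S _ hS => h _ ((mk_union_le _ _).trans_lt (add_lt_of_lt hκ.aleph0_le hS ?_))⟩
  exact (le_aleph0_iff_set_countable.2 countable_finSets).trans_lt (aleph0_lt hκ.aleph0_le hX)

end Pool.Agent.P.MP_27b523_gt.S
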